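import Pool.Agent.LGL.Rand

/-!
# LGL: basic facts on node weights and spreads
-/

set_option autoImplicit false

open Finset

namespace Pool.Agent.LGL

variable {V K : Type} [Fintype V] [DecidableEq V] [Fintype K] [DecidableEq K]

lemma nw_nonneg {inc : V → Finset K} {w : V → ℝ} (hw : ∀ e, 0 ≤ w e) (Q : K) :
    0 ≤ nw inc w Q := by
  unfold nw
  apply sum_nonneg
  intro e _
  split_ifs
  · exact hw e
  · exact le_refl 0

/-- exchange of the summations over nodes and elements -/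
lemma sum_nw_mul (inc : V → Finset K) (w : V → ℝ) (g : K → ℝ) :
    ∑ Q, nw inc w Q * g Q = ∑ e, w e * ∑ Q ∈ inc e, g Q := by
  unfold nw
  have h1 : ∀ Q, (∑ e, if Q ∈ inc e then w e else 0) * g Q =
      ∑ e, (if Q ∈ inc e then w e * g Q else 0) := by
    intro Q
    rw [sum_mul]
    apply sum_congr rfl
    intro e _
    split_ifs
    · rfl
    · rw [zero_mul]
  simp only [h1]
  rw [sum_comm]
  apply sum_congr rfl
  intro e _
  rw [mul_sum, ← sum_filter]
  apply sum_congr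
  · ext Q
    simp
  · intros
    rfl

lemma sum_nw {inc : V → Finset K} {r : ℕ} (hr : ∀ e, (inc e).card = r) (w : V → ℝ) :
    ∑ Q, nw inc w Q = r * ∑ e, w e := by
  have h := sum_nw_mul inc w (fun _ => 1)
  simp only [mul_one, sum_const, nsmul_eq_mul] at h
  rw [h, mul_sum]
  apply sum_congr rfl
  intro e _
  rw [hr e]
  ring

/-- exchange of the summations, general form -/
lemma sum_inc (inc : V → Finset K) (g : V → K → ℝ) :
    ∑ Q, ∑ e, (if Q ∈ inc e then g e Q else 0) = ∑ e, ∑ Q ∈ inc e, g e Q := by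
  rw [sum_comm]
  apply sum_congr rfl
  intro e _
  rw [← sum_filter]
  apply sum_congr
  · ext Q
    simp
  · intros
    rfl

lemma cov_eq {inc : V → Finset K} {lam : K → ℝ} {Q : K} {e : V} (h : Q ∈ inc e) :
    cov inc lam e = lam Q + rest inc lam Q e := by
  unfold cov rest
  rw [add_comm, sum_erase_add _ _ h]

lemma rest_nonneg {inc : V → Finset K} {lam : K → ℝ} (hl : ∀ Q, 0 ≤ lam Q) (Q : K) (e : V) :
    0 ≤ rest inc lam Q e := sum_nonneg fun R _ => hl R

lemma cov_nonneg {inc : V → Finset K} {lam : K → ℝ} (hl : ∀ Q, 0 ≤ lam Q) (e : V) :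
    0 ≤ cov inc lam e := sum_nonneg fun R _ => hl R

lemma cov_le {inc : V → Finset K} {lam : K → ℝ} {r : ℕ} (hr : ∀ e, (inc e).card = r)
    (hl : ∀ Q, lam Q ≤ 1) (e : V) : cov inc lam e ≤ r := by
  unfold cov
  calc ∑ R ∈ inc e, lam R ≤ ∑ _R ∈ inc e, (1 : ℝ) := sum_le_sum fun R _ => hl R
    _ = r := by rw [sum_const, hr e, nsmul_eq_mul, mul_one]

lemma rest_le {inc : V → Finset K} {lam : K → ℝ} {r : ℕ} (hr : ∀ e, (inc e).card = r)
    (hl : ∀ Q, lam Q ≤ 1) {Q : K} {e : V} (h : Q ∈ inc e) : rest inc lam Q e ≤ r - 1 := by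
  unfold rest
  have h1 : ((inc e).erase Q).card = r - 1 := by rw [card_erase_of_mem h, hr e]
  have h2 : 1 ≤ r := by
    rw [← hr e]
    exact card_pos.2 ⟨Q, h⟩
  calc ∑ R ∈ (inc e).erase Q, lam R ≤ ∑ _R ∈ (inc e).erase Q, (1 : ℝ) :=
        sum_le_sum fun R _ => hl R
    _ = r - 1 := by
        rw [sum_const, h1, nsmul_eq_mul, mul_one, Nat.cast_sub h2, Nat.cast_one]

lemma dev_nonneg {inc : V → Finset K} {w : V → ℝ} (hw : ∀ e, 0 ≤ w e) (lam : K → ℝ) (Q : K)
    (t : ℝ) : 0 ≤ dev inc w lam Q t := by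
  unfold dev
  apply sum_nonneg
  intro e _
  split_ifs
  · exact mul_nonneg (hw e) (abs_nonneg _)
  · exact le_refl 0

lemma dev_bdd {inc : V → Finset K} {w : V → ℝ} (hw : ∀ e, 0 ≤ w e) (lam : K → ℝ) (Q : K) :
    BddBelow (Set.range fun t => dev inc w lam Q t) := by
  refine ⟨0, ?_⟩
  rintro x ⟨t, rfl⟩
  exact dev_nonneg hw lam Q t

lemma spr_le_dev {inc : V → Finset K} {w : V → ℝ} (hw : ∀ e, 0 ≤ w e) (lam : K → ℝ) (Q : K)
    (t : ℝ) : spr inc w lam Q ≤ dev inc w lam Q t := ciInf_le (dev_bdd hw lam Q) t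

lemma le_spr {inc : V → Finset K} {w : V → ℝ} {lam : K → ℝ} {Q : K} {c : ℝ}
    (h : ∀ t, c ≤ dev inc w lam Q t) : c ≤ spr inc w lam Q := le_ciInf h

lemma spr_nonneg {inc : V → Finset K} {w : V → ℝ} (hw : ∀ e, 0 ≤ w e) (lam : K → ℝ) (Q : K) :
    0 ≤ spr inc w lam Q := le_spr fun t => dev_nonneg hw lam Q t

/-- the deviation changes slowly with the level -/
lemma dev_lip {inc : V → Finset K} {w : V → ℝ} (hw : ∀ e, 0 ≤ w e) (lam : K → ℝ) (Q : K)
    (t t' : ℝ) : dev inc w lam Q t ≤ dev inc w lam Q t' + |t - t'| * nw inc w Q := by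
  unfold dev nw
  rw [mul_sum, ← sum_add_distrib]
  apply sum_le_sum
  intro e _
  split_ifs
  · have h1 : |rest inc lam Q e - t| ≤ |rest inc lam Q e - t'| + |t - t'| := by
      have h2 := abs_sub_le (rest inc lam Q e) t' t
      rw [abs_sub_comm t' t] at h2
      exact h2
    have h3 := mul_le_mul_of_nonneg_left h1 (hw e)
    linarith
  · simp

lemma spr_le {inc : V → Finset K} {w : V → ℝ} {lam : K → ℝ} {r : ℕ}
    (hr : ∀ e, (inc e).card = r) (hw : ∀ e, 0 ≤ w e) (hl : ∀ Q, 0 ≤ lam Q ∧ lam Q ≤ 1) (Q : K) :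
    spr inc w lam Q ≤ r * nw inc w Q := by
  refine (spr_le_dev hw lam Q 0).trans ?_
  unfold dev nw
  rw [mul_sum]
  apply sum_le_sum
  intro e _
  split_ifs with h
  · rw [sub_zero, abs_of_nonneg (rest_nonneg (fun Q => (hl Q).1) Q e), mul_comm]
    apply mul_le_mul_of_nonneg_right _ (hw e)
    have := rest_le hr (fun Q => (hl Q).2) h
    linarith
  · simp

/-- the spread is a lower bound for the deviation of `cov` from `1` -/
lemma spr_le_cov {inc : V → Finset K} {w : V → ℝ} (hw : ∀ e, 0 ≤ w e) (lam : K → ℝ) (Q : K) :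
    spr inc w lam Q ≤ ∑ e, (if Q ∈ inc e then w e * |1 - cov inc lam e| else 0) := by
  refine (spr_le_dev hw lam Q (1 - lam Q)).trans (le_of_eq ?_)
  unfold dev
  apply sum_congr rfl
  intro e _
  split_ifs with h
  · rw [cov_eq h]
    congr 1
    rw [abs_sub_comm]
    congr 1
    ring
  · rfl

end Pool.Agent.LGL
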