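import Mathlib

/-!
# LGL: acyclic sets in oriented graphs whose edges are partitioned into cliques, definitions

`V` is the set of vertices ('elements'), `K` the set of cliques ('nodes'), `inc e` the set of
nodes which contain the element `e`.
-/

set_option autoImplicit false

open Finset

namespace Pool.Agent.LGL

section nodes

variable {V K : Type} [Fintype V] [DecidableEq V] [Fintype K] [DecidableEq K]

/-- total weight of the elements of the node `Q` -/
noncomputable def nw (inc : V → Finset K) (w : V → ℝ) (Q : K) : ℝ :=
  ∑ e, if Q ∈ inc e then w e else 0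

/-- sum of `lam` over all nodes of `e` -/
noncomputable def cov (inc : V → Finset K) (lam : K → ℝ) (e : V) : ℝ := ∑ R ∈ inc e, lam R

/-- sum of `lam` over the nodes of `e` different from `Q` -/
noncomputable def rest (inc : V → Finset K) (lam : K → ℝ) (Q : K) (e : V) : ℝ :=
  ∑ R ∈ (inc e).erase Q, lam R

/-- deviation of `rest` from the level `t` at the node `Q` -/
noncomputable def dev (inc : V → Finset K) (w : V → ℝ) (lam : K → ℝ) (Q : K) (t : ℝ) : ℝ :=
  ∑ e, if Q ∈ inc e then w e * |rest inc lam Q e - t| else 0

/-- the spread of `lam` at the node `Q`: least deviation -/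
noncomputable def spr (inc : V → Finset K) (w : V → ℝ) (lam : K → ℝ) (Q : K) : ℝ :=
  ⨅ t : ℝ, dev inc w lam Q t

/-- the node `Q` is hit by the set `I` of elements -/
def Hit (inc : V → Finset K) (I : Finset V) (Q : K) : Prop := ∃ f ∈ I, Q ∈ inc f

open Classical in
/-- number of hit nodes of `e` -/
noncomputable def mm (inc : V → Finset K) (I : Finset V) (e : V) : ℕ :=
  ((inc e).filter fun Q => Hit inc I Q).card

/-- `e` is killed from outside its nodes: there is an arc from an element of `I` to `e` which is
not inside a common node -/
def OutKilled (inc : V → Finset K) (arc : V → V → Prop) (I : Finset V) (e : V) : Prop :=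
  ∃ f ∈ I, arc f e ∧ Disjoint (inc f) (inc e)

/-- `e` is removed: it is picked, or there is an arc from a picked element to `e` -/
def Removed (arc : V → V → Prop) (I : Finset V) (e : V) : Prop :=
  e ∈ I ∨ ∃ f ∈ I, arc f e

open Classical in
/-- weight of the elements `e` of `Q` which survive the pick `f` (`e ≠ f` and no arc from `f`
to `e`) -/
noncomputable def sw (inc : V → Finset K) (arc : V → V → Prop) (w : V → ℝ) (f : V) (Q : K) : ℝ :=
  ∑ e, if Q ∈ inc e ∧ e ≠ f ∧ ¬ arc f e then w e else 0

/-- `f` is balanced: in every node of `f` at least the fraction `1/C` of the weight survives -/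
def Bal (inc : V → Finset K) (arc : V → V → Prop) (w : V → ℝ) (C : ℝ) (f : V) : Prop :=
  ∀ Q ∈ inc f, nw inc w Q ≤ C * sw inc arc w f Q

open Classical in
/-- capacities after the picks `I`: removed elements get `0`, elements without a hit node
`(1 + β) w`, the others `C w` -/
noncomputable def cap (inc : V → Finset K) (arc : V → V → Prop) (w : V → ℝ) (C β : ℝ)
    (I : Finset V) (e : V) : ℝ :=
  if Removed arc I e then 0 else if mm inc I e = 0 then (1 + β) * w e else C * w e

/-- two elements are in conflict: they have a common node or are joined by an arc -/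
def Conf (inc : V → Finset K) (arc : V → V → Prop) (f f' : V) : Prop :=
  ¬ Disjoint (inc f) (inc f') ∨ arc f f' ∨ arc f' f

/-- estimate of the deviation of `mu` from the level `t` at the node `Q` from the sample `S` of
nodes: only elements all of whose other nodes are in the sample are seen -/
noncomputable def sdev (inc : V → Finset K) (w : V → ℝ) (r : ℕ) (s : ℝ) (S : Finset K)
    (mu : K → ℝ) (Q : K) (t : ℝ) : ℝ :=
  (s ^ (r - 1))⁻¹ *
    ∑ e, if Q ∈ inc e ∧ (inc e).erase Q ⊆ S then w e * |rest inc mu Q e - t| else 0

/-- estimate of the spread from the sample `S`; the levels are the multiples of `1/m` in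
`[0,r]`, and the value is cut at `r` times the weight of the node -/
noncomputable def sspr (inc : V → Finset K) (w : V → ℝ) (r m : ℕ) (s : ℝ) (S : Finset K)
    (mu : K → ℝ) (Q : K) : ℝ :=
  min ((r : ℝ) * nw inc w Q)
    (⨅ j : Fin (r * m + 1), sdev inc w r s S mu Q ((j : ℕ) / (m : ℝ)))

end nodes

section random

variable {α : Type} [Fintype α] [DecidableEq α]

/-- probability that a random subset, which contains every `x` independently with probability
`p x`, is equal to `F` -/
noncomputable def bw (p : α → ℝ) (F : Finset α) : ℝ := (∏ x ∈ F, p x) * ∏ x ∈ Fᶜ, (1 - p x)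

/-- expectation over random subsets -/
noncomputable def Ex (p : α → ℝ) (φ : Finset α → ℝ) : ℝ := ∑ F : Finset α, bw p F * φ F

end random

end Pool.Agent.LGL
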