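import Pool.Agent.LGL.Defs

/-!
# LGL: random subsets, basic lemmas
-/

set_option autoImplicit false

open Finset

namespace Pool.Agent.LGL

variable {α : Type} [Fintype α] [DecidableEq α]

lemma bw_nonneg {p : α → ℝ} (hp : ∀ x, 0 ≤ p x ∧ p x ≤ 1) (F : Finset α) : 0 ≤ bw p F := by
  unfold bw
  apply mul_nonneg
  · exact prod_nonneg fun x _ => (hp x).1
  · exact prod_nonneg fun x _ => by have := (hp x).2; linarith

/-- generating function of a random subset -/
lemma Ex_prod (p a : α → ℝ) : Ex p (fun F => ∏ x ∈ F, a x) = ∏ x, (1 - p x + p x * a x) := by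
  have h := prod_add (fun x => p x * a x) (fun x => 1 - p x) (univ : Finset α)
  have h2 : ∏ x, (1 - p x + p x * a x) = ∏ x, (p x * a x + (1 - p x)) :=
    prod_congr rfl fun x _ => by ring
  rw [h2, h, powerset_univ]
  unfold Ex bw
  apply sum_congr rfl
  intro F _
  rw [prod_mul_distrib, compl_eq_univ_sdiff]
  ring

lemma Ex_one (p : α → ℝ) : Ex p (fun _ => 1) = 1 := by
  have h := Ex_prod p (fun _ => 1)
  simpa using h

lemma Ex_const (p : α → ℝ) (c : ℝ) : Ex p (fun _ => c) = c := by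
  have h := Ex_one p
  unfold Ex at *
  rw [← sum_mul]
  simp only [mul_one] at h
  rw [h, one_mul]

lemma Ex_add (p : α → ℝ) (f g : Finset α → ℝ) :
    Ex p (fun F => f F + g F) = Ex p f + Ex p g := by
  unfold Ex
  rw [← sum_add_distrib]
  exact sum_congr rfl fun F _ => by ring

lemma Ex_sub (p : α → ℝ) (f g : Finset α → ℝ) :
    Ex p (fun F => f F - g F) = Ex p f - Ex p g := by
  unfold Ex
  rw [← sum_sub_distrib]
  exact sum_congr rfl fun F _ => by ring

lemma Ex_mul_left (p : α → ℝ) (c : ℝ) (f : Finset α → ℝ) :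
    Ex p (fun F => c * f F) = c * Ex p f := by
  unfold Ex
  rw [mul_sum]
  exact sum_congr rfl fun F _ => by ring

lemma Ex_mul_right (p : α → ℝ) (c : ℝ) (f : Finset α → ℝ) :
    Ex p (fun F => f F * c) = Ex p f * c := by
  unfold Ex
  rw [sum_mul]
  exact sum_congr rfl fun F _ => by ring

lemma Ex_sum {ι : Type} (p : α → ℝ) (s : Finset ι) (f : ι → Finset α → ℝ) :
    Ex p (fun F => ∑ i ∈ s, f i F) = ∑ i ∈ s, Ex p (f i) := by
  unfold Ex
  rw [sum_comm]
  apply sum_congr rfl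
  intro F _
  rw [mul_sum]

lemma Ex_mono {p : α → ℝ} (hp : ∀ x, 0 ≤ p x ∧ p x ≤ 1) {f g : Finset α → ℝ}
    (h : ∀ F, f F ≤ g F) : Ex p f ≤ Ex p g := by
  unfold Ex
  exact sum_le_sum fun F _ => mul_le_mul_of_nonneg_left (h F) (bw_nonneg hp F)

lemma Ex_nonneg {p : α → ℝ} (hp : ∀ x, 0 ≤ p x ∧ p x ≤ 1) {f : Finset α → ℝ}
    (h : ∀ F, 0 ≤ f F) : 0 ≤ Ex p f := by
  unfold Ex
  exact sum_nonneg fun F _ => mul_nonneg (bw_nonneg hp F) (h F)

lemma Ex_congr (p : α → ℝ) {f g : Finset α → ℝ} (h : ∀ F, f F = g F) : Ex p f = Ex p g := by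
  unfold Ex
  exact sum_congr rfl fun F _ => by rw [h F]

/-- `|E f| ≤ E |f|` and `(E f)² ≤ E f²` in the form used here -/
lemma Ex_sq_le {p : α → ℝ} (hp : ∀ x, 0 ≤ p x ∧ p x ≤ 1) (f : Finset α → ℝ) :
    Ex p (fun F => |f F|) ≤ Real.sqrt (Ex p (fun F => f F ^ 2)) := by
  apply Real.le_sqrt_of_sq_le
  have h0 : 0 ≤ Ex p (fun F => |f F|) := Ex_nonneg hp fun F => abs_nonneg _
  set E := Ex p (fun F => |f F|) with hE
  have h1 : 0 ≤ Ex p (fun F => (|f F| - E) ^ 2) := Ex_nonneg hp fun F => sq_nonneg _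
  have h2 : Ex p (fun F => (|f F| - E) ^ 2) = Ex p (fun F => f F ^ 2) - 2 * E * E + E ^ 2 := by
    have h3 : Ex p (fun F => (|f F| - E) ^ 2) =
        Ex p (fun F => (f F ^ 2 - 2 * E * |f F|) + E ^ 2) :=
      Ex_congr p fun F => by rw [sub_sq, sq_abs]; ring
    rw [h3, Ex_add, Ex_sub, Ex_mul_left, Ex_const, ← hE]
  nlinarith

/-- the probability that a random subset contains `A` -/
lemma Ex_subset (p : α → ℝ) (A : Finset α) :
    Ex p (fun F => if A ⊆ F then 1 else 0) = ∏ x ∈ A, p x := by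
  -- use the generating function of the complement: substitute `p` on `A` and `1` elsewhere
  have key : Ex p (fun F => if A ⊆ F then 1 else 0) =
      ∑ F : Finset α, (∏ x ∈ F, p x) * ∏ x ∈ Fᶜ, (if x ∈ A then 0 else 1 - p x) := by
    unfold Ex bw
    apply sum_congr rfl
    intro F _
    by_cases h : A ⊆ F
    · simp only [if_pos h]
      rw [mul_one]
      congr 1
      apply prod_congr rfl
      intro x hx
      rw [if_neg]
      intro hxA
      exact (mem_compl.1 hx) (h hxA)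
    · simp only [if_neg h]
      rw [mul_zero]
      symm
      obtain ⟨x, hxA, hxF⟩ := not_subset.1 h
      rw [mul_eq_zero]
      right
      exact prod_eq_zero (mem_compl.2 hxF) (if_pos hxA)
  rw [key]
  have h := prod_add (fun x => p x) (fun x => if x ∈ A then (0 : ℝ) else 1 - p x)
    (univ : Finset α)
  rw [powerset_univ] at h
  have h2 : ∑ F : Finset α, (∏ x ∈ F, p x) * ∏ x ∈ Fᶜ, (if x ∈ A then (0 : ℝ) else 1 - p x) =
      ∏ x, (p x + if x ∈ A then (0 : ℝ) else 1 - p x) := by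
    rw [h]
    apply sum_congr rfl
    intro F _
    rw [compl_eq_univ_sdiff]
  rw [h2, ← prod_subset (subset_univ A)]
  · apply prod_congr rfl
    intro x hx
    rw [if_pos hx, add_zero]
  · intro x _ hx
    rw [if_neg hx]
    ring

lemma Ex_mem (p : α → ℝ) (x : α) : Ex p (fun F => if x ∈ F then 1 else 0) = p x := by
  have h := Ex_subset p {x}
  simpa using h

lemma Ex_mem_mem (p : α → ℝ) {x y : α} (hxy : x ≠ y) :
    Ex p (fun F => if x ∈ F ∧ y ∈ F then 1 else 0) = p x * p y := by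
  have h := Ex_subset p {x, y}
  rw [prod_pair hxy] at h
  rw [← h]
  apply Ex_congr
  intro F
  have : ({x, y} : Finset α) ⊆ F ↔ x ∈ F ∧ y ∈ F := by
    rw [insert_subset_iff, singleton_subset_iff]
  simp only [this]

/-- expectation of a sum over the random subset -/
lemma Ex_sum_mem (p b : α → ℝ) : Ex p (fun F => ∑ x ∈ F, b x) = ∑ x, p x * b x := by
  have h1 : Ex p (fun F => ∑ x ∈ F, b x) =
      Ex p (fun F => ∑ x, (if x ∈ F then 1 else 0) * b x) := by
    apply Ex_congr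
    intro F
    simp
  rw [h1, Ex_sum]
  apply sum_congr rfl
  intro x _
  rw [Ex_mul_right, Ex_mem]

lemma Ex_card (p : α → ℝ) : Ex p (fun F => (F.card : ℝ)) = ∑ x, p x := by
  have h := Ex_sum_mem p (fun _ => 1)
  simpa using h

/-- exponential moment -/
lemma Ex_exp_le {p : α → ℝ} (hp : ∀ x, 0 ≤ p x ∧ p x ≤ 1) (b : α → ℝ) :
    Ex p (fun F => Real.exp (∑ x ∈ F, b x)) ≤
      Real.exp (∑ x, p x * (Real.exp (b x) - 1)) := by
  have h1 : Ex p (fun F => Real.exp (∑ x ∈ F, b x)) = Ex p (fun F => ∏ x ∈ F, Real.exp (b x)) :=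
    Ex_congr p fun F => by rw [Real.exp_sum]
  rw [h1, Ex_prod, Real.exp_sum]
  apply prod_le_prod
  · intro x _
    have h2 := hp x
    have h3 := Real.exp_pos (b x)
    nlinarith [mul_nonneg h2.1 h3.le]
  · intro x _
    have h2 := Real.add_one_le_exp (p x * (Real.exp (b x) - 1))
    linarith

open Classical in
/-- Markov's inequality -/
lemma Ex_markov {p : α → ℝ} (hp : ∀ x, 0 ≤ p x ∧ p x ≤ 1) {f : Finset α → ℝ}
    (hf : ∀ F, 0 ≤ f F) {c : ℝ} (hc : 0 < c) :
    Ex p (fun F => if c ≤ f F then 1 else 0) ≤ Ex p f / c := by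
  rw [le_div_iff₀ hc, ← Ex_mul_right]
  apply Ex_mono hp
  intro F
  split_ifs with h
  · linarith
  · rw [zero_mul]
    exact hf F

/-- if the expected number of bad events is less than one, there is a set of positive
probability without a bad event -/
lemma exists_good {p : α → ℝ} (hp : ∀ x, 0 ≤ p x ∧ p x ≤ 1) {χ : Finset α → ℝ}
    (hχ : Ex p χ < 1) : ∃ F, (∀ x ∈ F, 0 < p x) ∧ χ F < 1 := by
  by_contra hcon
  push Not at hcon
  have h1 : ∀ F, bw p F * 1 ≤ bw p F * χ F := by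
    intro F
    by_cases h : ∀ x ∈ F, 0 < p x
    · exact mul_le_mul_of_nonneg_left (hcon F h) (bw_nonneg hp F)
    · push Not at h
      obtain ⟨x, hx, hx0⟩ := h
      have hx1 : p x = 0 := le_antisymm hx0 (hp x).1
      have h2 : bw p F = 0 := by
        unfold bw
        rw [prod_eq_zero hx hx1, zero_mul]
      rw [h2, zero_mul, zero_mul]
  have h2 : Ex p (fun _ => 1) ≤ Ex p χ := sum_le_sum fun F _ => h1 F
  rw [Ex_one] at h2
  linarith

end Pool.Agent.LGL
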