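import Pool.Agent.LGL.Basics

/-!
# LGL: targets (MP_94e41a_co)

Acyclic sets of size `c (n/k) log k` in oriented graphs whose edges are partitioned into cliques,
at most `r` cliques at each vertex. `V` = vertices (elements), `K` = cliques (nodes), `inc e` = the
nodes of `e`. Definitions: Defs.lean; random subsets: Rand.lean (`Ex_prod`, `Ex_subset`,
`Ex_sum_mem`, `Ex_mem`, `Ex_mem_mem`, `Ex_card`, `Ex_exp_le`, `Ex_markov`, `Ex_sq_le`,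
`exists_good`); node weights and spreads: Basics.lean (`sum_nw_mul`, `sum_nw`, `sum_inc`, `cov_eq`,
`rest_le`, `dev_lip`, `spr_le_dev`, `le_spr`, `spr_le`, `spr_le_cov`).
Each target `T_X` is to be proved in `Pool/Agent/LGL/P_X.lean` as `theorem p_X : T_X`, or with other
targets as hypotheses, `theorem p_X (h : T_Y) : T_X`, exactly as said in its docstring.
-/

set_option autoImplicit false

open Finset

namespace Pool.Agent.LGL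

/-- LPD. Duality for packing with capacities. PROOF. For `w` in the box `0 ≤ w ≤ u` and `lam` in the
box `[0,1]^K` put `f(w, lam) = ∑ w_e (1 - cov lam e) + ∑ lam_Q = ∑ w_e - ∑ lam_Q (nw w Q - 1)`. It
is affine in each variable and both boxes are compact and convex, so by the minimax theorem (Mathlib
`Sion.exists_isSaddlePointOn`/`Sion.minimax` in Mathlib/Topology/Sion.lean, or any separation
argument) there is `w` in the box with `f(w, lam) ≥ v` for all `lam` in the box: for fixed `lam` the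
maximum over `w` is `∑ u_e max(0, 1 - cov) + ∑ lam ≥ v`. Take `lam = 1` on
`B = {Q : nw w Q > 1}` and `0` elsewhere: `∑ w_e - ∑_{Q ∈ B} (nw w Q - 1) ≥ v`. Now trim:
`w'_e = w_e · min_{Q ∈ inc e} g_Q` (or `w_e ∏_{Q ∈ inc e} g_Q`) with `g_Q = 1` off `B`,
`g_Q = 1/nw w Q` on `B`. Then `nw w' Q ≤ 1`, and since `∏ g_Q ≥ 1 - ∑ (1 - g_Q)`,
`∑ w'_e ≥ ∑ w_e - ∑_{Q ∈ B} (1 - 1/nw w Q) nw w Q = ∑ w_e - ∑_{Q ∈ B} (nw w Q - 1) ≥ v`. -/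
def T_LPD : Prop := ∀ (V K : Type) [Fintype V] [DecidableEq V] [Fintype K] [DecidableEq K]
  (inc : V → Finset K) (u : V → ℝ) (v : ℝ), (∀ e, 0 ≤ u e) →
  (∀ lam : K → ℝ, (∀ Q, 0 ≤ lam Q ∧ lam Q ≤ 1) →
    v ≤ ∑ Q, lam Q + ∑ e, u e * max 0 (1 - cov inc lam e)) →
  ∃ w : V → ℝ, (∀ e, 0 ≤ w e ∧ w e ≤ u e) ∧ (∀ Q, nw inc w Q ≤ 1) ∧ v ≤ ∑ e, w e

open Classical in
/-- BAL. The unbalanced elements have small weight. PROOF. If `e` is not balanced there is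
`Q ∈ inc e` with `C · sw e Q < nw Q`; so the sum is at most `∑_Q w(B_Q)` with
`B_Q = {f : Q ∈ inc f, C · sw f Q < nw Q}`. Claim `w(B_Q) ≤ 2 nw Q / C + κ`: let `B = B_Q`,
`b = w(B) > 0`. `∑_{f ∈ B} w_f ∑_{e ∈ B, e ≠ f, ¬ arc f e} w_e ≥ (1/2) ∑_{f ≠ e in B} w_f w_e ≥
(1/2) (b^2 - κ b)` (of `arc f e`, `arc e f` at most one holds; `∑_B w^2 ≤ κ b`), and every inner sum
is at most `sw f Q < nw Q / C`, so the left side is `≤ b nw Q / C`. Sum over `Q`: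
`∑ nw Q = r ∑ w` (`sum_nw`). -/
def T_BAL : Prop := ∀ (V K : Type) [Fintype V] [DecidableEq V] [Fintype K] [DecidableEq K]
  (inc : V → Finset K) (arc : V → V → Prop) (w : V → ℝ) (r : ℕ) (C κ : ℝ),
  (∀ e, (inc e).card = r) → (∀ a b, arc a b → ¬ arc b a) → (∀ e, 0 ≤ w e ∧ w e ≤ κ) → 0 < C →
  ∑ e, (if Bal inc arc w C e then 0 else w e) ≤
    2 * r / C * ∑ e, w e + κ * Fintype.card K

open Classical in
/-- NOD. Inequality at a hit node. PROOF. By `le_spr` it is enough to prove it with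
`dev inc w lam Q t` instead of the spread (`1 + C > 0`; divide), for every `t`. Write
`τ = 1 - lam Q`, so `1 - cov e = τ - rest e` for `Q ∈ inc e` (`cov_eq`). If `τ ≤ t`: the first sum
is `≤ ∑_Q w (t - rest) ≤ dev t`, the second is `≥ 0`. If `t < τ`: the first sum is
`nw Q (τ - t) + ∑_Q w (t - rest) ≤ nw Q (τ - t) + dev t`; in the second sum
`max 0 (τ - rest) ≥ (τ - t) - |rest - t|`, so it is `≥ sw f Q (τ - t) - dev t`; with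
`nw Q ≤ C sw f Q` the difference is `≤ (1 + C) dev t`. -/
def T_NOD : Prop := ∀ (V K : Type) [Fintype V] [DecidableEq V] [Fintype K] [DecidableEq K]
  (inc : V → Finset K) (arc : V → V → Prop) (w : V → ℝ) (C : ℝ) (lam : K → ℝ) (f : V) (Q : K),
  (∀ e, 0 ≤ w e) → 0 < C → nw inc w Q ≤ C * sw inc arc w f Q →
  ∑ e, (if Q ∈ inc e then w e * (1 - cov inc lam e) else 0) -
    C * ∑ e, (if Q ∈ inc e ∧ e ≠ f ∧ ¬ arc f e then w e * max 0 (1 - cov inc lam e) else 0) ≤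
  (1 + C) * spr inc w lam Q

open Classical in
/-- DET (`theorem p_DET (h : T_NOD) : T_DET`). The deterministic inequality. Put
`x_e = 1 - cov lam e` (`1 - r ≤ x_e ≤ 1`, so `|x_e| ≤ r`), `m = mm inc I`, `x⁺ = max 0 x`.
PROOF. (1) `∑ w x = ∑ w - ∑_Q nw Q lam Q ≥ ∑ w - ∑ lam` (`sum_nw_mul`). So it suffices to bound
`∑ w x` from above. (2) Elements with `m = 0`: if such an `e` is removed, then it is OutKilled
(`e ∉ I` because `r ≥ 1`; `arc f e`, `f ∈ I`, and `inc f`, `inc e` are disjoint as `m e = 0`). So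
`∑_{m=0} w x ≤ ∑_{m=0} cap x⁺ - β ∑_{m=0} w |x| + 2 ∑_{OutKilled, m=0} w`
(for a not removed `e`: `w x = (1+β) w x⁺ - β w x⁺ - w x⁻ ≤ cap x⁺ - β w |x|`; for a removed one
`w x ≤ w` and `β w |x| ≤ ...`: if `x ≥ 0` then `w x + β w x ≤ 2 w`, if `x < 0` then
`w x + β w |x| ≤ 0`). (3) `β ∑_{m=0} w |x| ≥ β ((1/r) ∑_Q spr Q - r ∑_{m ≥ 1} w)`, because
`∑_e w |x| = (1/r) ∑_Q ∑_{e ∈ Q} w |x| ≥ (1/r) ∑_Q spr Q` (`sum_inc`, `spr_le_cov`). (4) Elements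
with `m ≥ 1`: `∑_{m≥1} w x = ∑_e m w x - ∑_e (m-1)⁺ w x ≤ ∑_{Q hit} ∑_{e ∈ Q} w x +
r ∑_e (m-1)⁺ w`. (5) Every hit `Q` has exactly one `f_Q ∈ I` with `Q ∈ inc f_Q`. Let
`S_Q = {e ∈ Q : e ≠ f_Q, ¬ arc f_Q e}`. Claim
`∑_{Q hit} ∑_{S_Q} w x⁺ ≤ ∑_{m≥1, not removed} w x⁺ + 2 ∑ (m-1)⁺ w + ∑_{OutKilled} w`: for given `e`
let `c` be the number of hit `Q` with `e ∈ S_Q`, `c ≤ m`; `c ≤ 2 (m-1)` if `m ≥ 2`; if `m = 1` and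
`c = 1` and `e` is removed then `e` is OutKilled (`e ∈ I` would give `f_Q = e`; if `arc f' e`,
`f' ∈ I` and `f'`, `e` have a common node, this node is hit, so it is `Q` and `f' = f_Q`). And
`x⁺ ≤ 1`. (6) For `m ≥ 1` not removed `cap = C w`. With (4), (5) and T_NOD for every hit `Q`:
`∑_{m≥1} w x ≤ ∑_{m≥1} cap x⁺ + (1+C) ∑_{Q hit} spr Q + (r + 2C) ∑ (m-1)⁺ w + C ∑_{OutKilled} w`. -/
def T_DET : Prop := ∀ (V K : Type) [Fintype V] [DecidableEq V] [Fintype K] [DecidableEq K]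
  (inc : V → Finset K) (arc : V → V → Prop) (w : V → ℝ) (r : ℕ) (C β : ℝ) (I : Finset V)
  (lam : K → ℝ), 1 ≤ r → (∀ e, (inc e).card = r) → (∀ e, 0 ≤ w e) → (∀ Q, nw inc w Q ≤ 1) →
  0 < C → 0 ≤ β → β ≤ 1 →
  (∀ f ∈ I, ∀ f' ∈ I, f ≠ f' → Disjoint (inc f) (inc f')) → (∀ f ∈ I, Bal inc arc w C f) →
  (∀ Q, 0 ≤ lam Q ∧ lam Q ≤ 1) →
  ∑ e, w e - (1 + C) * ∑ Q, (if Hit inc I Q then spr inc w lam Q else 0)
      + β / r * ∑ Q, spr inc w lam Q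
      - β * r * ∑ e, (if mm inc I e = 0 then 0 else w e)
      - (r + 2 * C) * ∑ e, ((mm inc I e - 1 : ℕ) : ℝ) * w e
      - (C + 2) * ∑ e, (if OutKilled inc arc I e then w e else 0) ≤
    ∑ Q, lam Q + ∑ e, cap inc arc w C β I e * max 0 (1 - cov inc lam e)

open Classical in
/-- SAM. Sampling. PROOF. Let `X_e = 1[N e ⊆ S]`, `q = s^m`, `Z = q⁻¹ ∑_{e ∈ E} c_e X_e`. By
`Ex_subset`: `E X_e = q`, `E X_e X_{e'} = s^{2m} = q^2` for `e ≠ e'` (`N e ∪ N e'` has `2m`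
elements), `E X_e^2 = q`. So `E (Z - ∑ c)^2 = q⁻² ∑_{e,e'} c_e c_{e'} (E X_e X_{e'} - q^2) =
q⁻² ∑ c_e^2 (q - q^2) ≤ q⁻¹ ∑ c_e^2`; `Ex_sq_le`. -/
def T_SAM : Prop := ∀ (K ι : Type) [Fintype K] [DecidableEq K] [DecidableEq ι] (E : Finset ι)
  (N : ι → Finset K) (m : ℕ) (c : ι → ℝ) (s : ℝ), 0 < s → s ≤ 1 → (∀ e ∈ E, (N e).card = m) →
  (∀ e ∈ E, ∀ e' ∈ E, e ≠ e' → Disjoint (N e) (N e')) →
  Ex (fun _ : K => s)
    (fun S => |(s ^ m)⁻¹ * ∑ e ∈ E, (if N e ⊆ S then c e else 0) - ∑ e ∈ E, c e|) ≤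
  Real.sqrt ((s ^ m)⁻¹ * ∑ e ∈ E, c e ^ 2)

/-- SSP (`theorem p_SSP (h : T_SAM) : T_SSP`). The spread is seen by a random sample of the nodes.
PROOF. Fix `Q`; `E = {e : Q ∈ inc e}`, `N e = (inc e).erase Q` (`r - 1` elements; disjoint for
`e ≠ e'` in `E` since `inc e ∩ inc e'` has at most one element and contains `Q`). Let `t_j = j/m`,
`0 ≤ j ≤ r m`. (a) `spr ≤ r nw Q` (`spr_le`), so cutting at `r nw Q` does not increase the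
distance: `|min a x - y| ≤ |x - y|` if `y ≤ a`. (b) `|⨅_j sdev(mu, t_j) - ⨅_j dev(lam, t_j)| ≤
∑_j |sdev(lam, t_j) - dev(lam, t_j)| + ((r-1)/m) (s^(r-1))⁻¹ ∑_{visible} w`, because
`|rest mu - rest lam| ≤ (r-1)/m`. (c) `|⨅_j dev(lam, t_j) - spr lam| ≤ nw Q / m`: `≥` is
`spr_le_dev`; for the other direction let `t` be real: since `0 ≤ rest ≤ r`, replacing `t` by its
projection to `[0, r]` does not increase `dev`, and then take `t_j ≤ t ≤ t_j + 1/m`, `dev_lip`.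
(d) Expectations: T_SAM with `c e = w e |rest lam Q e - t_j|`, `∑ c² ≤ r² κ ∑_E w ≤ r² κ`
(`|rest - t_j| ≤ r`, `w² ≤ κ w`, `nw Q ≤ 1`), so each of the `r m + 1` terms is at most
`√(κ r²/s^(r-1)) = r √(κ/s^(r-1))`; and the expectation of `(s^(r-1))⁻¹ ∑_{visible} w` is `nw Q`
(`Ex_subset`). Total `(rm+1) r √(κ/s^(r-1)) + ((r-1)/m + 1/m) nw Q`. -/
def T_SSP : Prop := ∀ (V K : Type) [Fintype V] [DecidableEq V] [Fintype K] [DecidableEq K]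
  (inc : V → Finset K) (w : V → ℝ) (lam mu : K → ℝ) (r m : ℕ) (s κ : ℝ) (Q : K),
  1 ≤ r → 1 ≤ m → (∀ e, (inc e).card = r) → (∀ e e', e ≠ e' → (inc e ∩ inc e').card ≤ 1) →
  (∀ e, 0 ≤ w e ∧ w e ≤ κ) → nw inc w Q ≤ 1 → 0 < s → s ≤ 1 → (∀ R, 0 ≤ lam R ∧ lam R ≤ 1) →
  (∀ R, |mu R - lam R| ≤ 1 / m) →
  Ex (fun _ : K => s) (fun S => |sspr inc w r m s S mu Q - spr inc w lam Q|) ≤
    (r * m + 1) * (r * Real.sqrt (κ / s ^ (r - 1))) + r / m * nw inc w Q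

open Classical in
/-- UNB (`theorem p_UNB (h : T_SSP) : T_UNB`). Uniform bound over all `lam`. PROOF.
`ψ = (rm+1) r √(κ/s^(r-1))`, `W = ∑ w`, `N = card K`, `θ = 1/r²`. For `S ⊆ K` let `M(S)` be the
functions `mu : K → ℝ` of the form `mu Q = j_Q/m`, `j_Q ∈ {0..m}`, with `j_Q = 0` for `Q ∉ S`
(indexed by `Fintype.piFinset (fun Q => if Q ∈ S then range (m+1) else {0})`, of cardinality
`(m+1)^{|S|}`). Put `G(F,S,mu) = ∑_{f ∈ F} ∑_{Q ∈ inc f} sspr(S,mu,Q) - 2δ ∑_Q sspr(S,mu,Q)` and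
`Z(F) = E_S ∑_{mu ∈ M(S)} exp(θ G(F,S,mu))`.
(a) For fixed `S, mu`: `0 ≤ sspr Q ≤ r nw Q ≤ r`, so `θ ∑_{Q ∈ inc f} sspr Q ≤ 1`, `e^x - 1 ≤ 2x` on
`[0,1]`, `Ex_exp_le`, `p ≤ δ w`, `sum_nw_mul` and `nw Q ≤ 1` give `E_F exp(θ G) ≤
exp(∑_f p_f 2θ ∑_{Q ∈ inc f} sspr Q - 2θδ ∑_Q sspr Q) ≤ 1`. Hence
`E_F Z ≤ E_S (m+1)^{|S|} = (1 + s m)^N ≤ exp(s m N)` (`Ex_prod`, `1 + x ≤ exp x`).
(b) Let `F` be bad: `|F| ≤ 8δW`, and `lam` as in the statement. Let `mu Q = ⌊m lam Q⌋/m`; for a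
sample `S` the function `mu_S = mu` on `S`, `0` off `S`, is in `M(S)` and
`sspr(S, mu_S, Q) = sspr(S, mu, Q)` (only nodes in `S` are used). `G(F,S,mu_S) ≥
(∑_{f∈F} ∑_{Q∈inc f} spr - 2δ ∑_Q spr) - R(S) > 2a - R(S)` with
`R(S) = ∑_{f∈F} ∑_{Q ∈ inc f} |sspr - spr| + 2δ ∑_Q |sspr - spr|`. By T_SSP
`E_S R ≤ 8δW (r ψ + r²/m) + 2δ(N ψ + (r/m) r W) ≤ a/2` (`∑_Q nw = r W`), so by Markov
`R(S) < a` with probability `≥ 1/2` and `Z(F) ≥ exp(θ a)/2`.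
(c) Markov: `P(bad) ≤ 2 exp(-θ a) E Z ≤ 2 exp(s m N - a/r²) ≤ 2 e⁻³ ≤ 1/4`. -/
def T_UNB : Prop := ∀ (V K : Type) [Fintype V] [DecidableEq V] [Fintype K] [DecidableEq K]
  (inc : V → Finset K) (w p : V → ℝ) (r m : ℕ) (s κ δ a ψ : ℝ),
  1 ≤ r → 1 ≤ m → (∀ e, (inc e).card = r) → (∀ e e', e ≠ e' → (inc e ∩ inc e').card ≤ 1) →
  (∀ e, 0 ≤ w e ∧ w e ≤ κ) → (∀ Q, nw inc w Q ≤ 1) → 0 < s → s ≤ 1 → 0 < δ → 0 < a →
  (∀ e, 0 ≤ p e ∧ p e ≤ 1 ∧ p e ≤ δ * w e) →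
  ψ = (r * m + 1) * (r * Real.sqrt (κ / s ^ (r - 1))) →
  8 * δ * (∑ e, w e) * (r * ψ + (r : ℝ) ^ 2 / m) +
    2 * δ * (Fintype.card K * ψ + (r : ℝ) ^ 2 / m * ∑ e, w e) ≤ a / 2 →
  s * m * Fintype.card K + 3 ≤ a / (r : ℝ) ^ 2 →
  Ex p (fun F => if (F.card : ℝ) ≤ 8 * δ * ∑ e, w e ∧ ∃ lam : K → ℝ,
      (∀ Q, 0 ≤ lam Q ∧ lam Q ≤ 1) ∧
      2 * δ * ∑ Q, spr inc w lam Q + 2 * a < ∑ f ∈ F, ∑ Q ∈ inc f, spr inc w lam Q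
    then 1 else 0) ≤ 1 / 4

/-- MUL. Elements with two hit nodes. PROOF. `(m - 1)⁺ ≤ #{(Q,R) ∈ inc e × inc e : Q ≠ R, both hit}`
(even half of it), and for `Q ≠ R` in `inc e`, `1[Q, R hit] ≤ ∑_{f ∋ Q, f' ∋ R} 1[f ∈ F, f' ∈ F]`.
In this sum `f = f'` only for `f = e` (`Q, R ∈ inc f ∩ inc e`, so `f = e` by the linearity
condition). `Ex_mem`, `Ex_mem_mem`: the expectation is `≤ ∑_{f ∋ Q} p_f ∑_{f' ∋ R} p_{f'} + p_e ≤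
δ² + δκ` (`nw ≤ 1`). There are at most `r²` pairs. -/
def T_MUL : Prop := ∀ (V K : Type) [Fintype V] [DecidableEq V] [Fintype K] [DecidableEq K]
  (inc : V → Finset K) (w p : V → ℝ) (r : ℕ) (κ δ : ℝ),
  (∀ e, (inc e).card = r) → (∀ e e', e ≠ e' → (inc e ∩ inc e').card ≤ 1) →
  (∀ e, 0 ≤ w e ∧ w e ≤ κ) → (∀ Q, nw inc w Q ≤ 1) → 0 < δ →
  (∀ e, 0 ≤ p e ∧ p e ≤ 1 ∧ p e ≤ δ * w e) →
  Ex p (fun F => ∑ e, ((mm inc F e - 1 : ℕ) : ℝ) * w e) ≤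
    (r : ℝ) ^ 2 * (δ ^ 2 + δ * κ) * ∑ e, w e

open Classical in
/-- REJ. Few candidates are in conflict. PROOF. The number is at most
`∑_{f} ∑_{f' ≠ f, Conf f f'} 1[f ∈ F, f' ∈ F]`; `Ex_mem_mem`. For given `f` the `f'` in conflict
either have a common node, `∑ p_{f'} ≤ ∑_{Q ∈ inc f} δ nw Q ≤ δ r`, or they are among the at most
`ℓ` outside neighbours, `∑ p_{f'} ≤ δ κ ℓ`. -/
def T_REJ : Prop := ∀ (V K : Type) [Fintype V] [DecidableEq V] [Fintype K] [DecidableEq K]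
  (inc : V → Finset K) (arc : V → V → Prop) (w p : V → ℝ) (r : ℕ) (κ δ ℓ : ℝ),
  (∀ e, (inc e).card = r) →
  (∀ e, ((univ.filter fun x => (arc e x ∨ arc x e) ∧ Disjoint (inc e) (inc x)).card : ℝ) ≤ ℓ) →
  (∀ e, 0 ≤ w e ∧ w e ≤ κ) → (∀ Q, nw inc w Q ≤ 1) → 0 < δ →
  (∀ e, 0 ≤ p e ∧ p e ≤ 1 ∧ p e ≤ δ * w e) →
  Ex p (fun F => ((F.filter fun f => ∃ f' ∈ F, f' ≠ f ∧ Conf inc arc f f').card : ℝ)) ≤
    δ * (r + ℓ * κ) * ∑ e, p e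

/-- numerical conditions for a stage -/
structure Num (r m : ℕ) (s κ δ Γ ℓ : ℝ) : Prop where
  hr : 1 ≤ r
  hm : 1 ≤ m
  hs0 : 0 < s
  hs1 : s ≤ 1
  hδ0 : 0 < δ
  hδ1 : 200 * (r : ℝ) ^ 2 * δ ≤ 1
  hκ0 : 0 ≤ κ
  hκδ : κ ≤ δ
  hℓ0 : 0 ≤ ℓ
  hℓκ : ℓ * κ ≤ δ
  hΓ0 : 0 ≤ Γ
  hκΓ : κ * Γ ≤ 1 / 8
  hmδ : 2 ≤ δ * m
  hψ : (8 * r + 2 * Γ) * ((r * m + 1) * (r * Real.sqrt (κ / s ^ (r - 1)))) ≤
    9 * (r : ℝ) ^ 3 * δ
  hsΓ : s * m * Γ ≤ 20 * δ ^ 2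

open Classical in
/-- the graph conditions: every element is in exactly `r` nodes, two elements have at most one
common node, `arc` is asymmetric, and there are at most `ℓ` neighbours without a common node -/
structure Gr (V K : Type) [Fintype V] [DecidableEq V] [Fintype K] [DecidableEq K]
    (inc : V → Finset K) (arc : V → V → Prop) (r : ℕ) (ℓ : ℝ) : Prop where
  card : ∀ e, (inc e).card = r
  lin : ∀ e e', e ≠ e' → (inc e ∩ inc e').card ≤ 1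
  asymm : ∀ a b, arc a b → ¬ arc b a
  out : ∀ e, ((univ.filter fun x => (arc e x ∨ arc x e) ∧ Disjoint (inc e) (inc x)).card : ℝ) ≤ ℓ

/-- STG (`theorem p_STG (h1 : T_LPD) (h2 : T_BAL) (h3 : T_DET) (h4 : T_UNB) (h5 : T_MUL)
(h6 : T_REJ) : T_STG`). The stage lemma. PROOF. `C = 16 r`, `β = 2 r (1 + 16 r) δ ≤ 1`,
`η = 2000 r^4 δ^2`, `W = ∑ w`, `N = card K ≤ Γ W`, `p_f = δ w_f` if `f` is balanced
(`Bal inc arc w C f`), `0` otherwise; `μ = ∑ p`. BAL: the unbalanced weight is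
`≤ W/8 + κ Γ W ≤ W/4`, so `(3/4) δ W ≤ μ ≤ δ W`. `a = η W/(4 (1 + C))`. Bad events for a random
`F` (`exists_good` with the sum of the indicators, expectation `≤ 3/4`):
E1 `8 δ W ≤ |F|`, probability `≤ 1/8` (`Ex_card`, Markov; if `W > 0`);
E2 `|F| ≤ μ/4`: `E exp(-|F|) ≤ exp(-(1 - e⁻¹) μ) ≤ exp(-μ/2)` (`Ex_exp_le` with `b = -1`), so the
probability is `≤ exp(μ/4 - μ/2) ≤ exp(-9/4) ≤ 1/8` (`μ ≥ (3/4) δ W ≥ (3/4)/δ ≥ 150`);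
E3 the number `R` of candidates in conflict is `≥ μ/8`: `≤ 8 δ (r + ℓκ) ≤ 1/8` (REJ);
E4 `∑ (mm F e - 1) w ≥ 16 r² δ² W`: `≤ 1/8` (MUL, `δκ ≤ δ²`);
E5 the event of UNB: `≤ 1/4`. (Its hypotheses: `a ≥ 2000 r⁴ δ² W/(68 r) ≥ 29 r³ δ² W`;
`8δW(rψ + r²/m) + 2δ(Nψ + r²W/m) ≤ δW((8r + 2Γ)ψ + 10 r²/m) ≤ δW(9r³δ + 5r²δ) ≤ 14 r³ δ² W ≤ a/2`
as `1/m ≤ δ/2`; `s m N + 3 ≤ 20 δ² W + 3 δ² W ≤ 29 r δ² W ≤ a/r²`, `1 ≤ δ² W`.)
Let `I` be `F` without the candidates in conflict: `|I| ≥ μ/4 - μ/8 ≥ (3/32) δ W`; two elements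
of `I` are not in conflict; all are balanced with `p > 0`, so `w > 0`. For every `lam` in `[0,1]^K`
DET gives `∑ lam + ∑ cap x⁺ ≥ W - (1+C) ∑_{Q hit by I} spr + (β/r) ∑ spr - Err`, and
`∑_{Q hit by I} spr ≤ ∑_{f ∈ F} ∑_{Q ∈ inc f} spr ≤ 2δ ∑ spr + 2a` (not E5, not E1); as
`β/r = 2δ(1+C)` this is `≥ W - ηW/2 - Err`. `Err ≤ ηW/2`: `∑_{mm I ≥ 1} w ≤ ∑_{f ∈ I} ∑_{Q ∈ inc f}
nw Q ≤ r |F| ≤ 8 r δ W`, so `β r · 8 r δ W ≤ 272 r⁴ δ² W`; `mm I ≤ mm F`, so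
`(r + 2C) · 16 r² δ² W ≤ 528 r⁴ δ² W`; OutKilled: `≤ |I| ℓ κ ≤ 8 δ² W`, times `C + 2 ≤ 18 r`. LPD
with `u = cap` (`≥ 0`) gives `w'`, `∑ w' ≥ (1 - η) W`; if `∑ w' > W` multiply `w'` by `W/∑ w'`.
`cap = 0` on removed elements, `cap ≤ C w` (`1 + β ≤ 2 ≤ C`), and `cap = (1+β) w` if no node of
`e` is hit (`mm inc I e = 0`). -/
def T_STG : Prop := ∀ (V K : Type) [Fintype V] [DecidableEq V] [Fintype K] [DecidableEq K]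
  (inc : V → Finset K) (arc : V → V → Prop) (w : V → ℝ) (r m : ℕ) (s κ δ Γ ℓ : ℝ),
  Num r m s κ δ Γ ℓ → Gr V K inc arc r ℓ →
  (∀ e, 0 ≤ w e ∧ w e ≤ κ) → (∀ Q, nw inc w Q ≤ 1) →
  (Fintype.card K : ℝ) ≤ Γ * ∑ e, w e → 1 ≤ δ ^ 2 * ∑ e, w e →
  ∃ (I : Finset V) (w' : V → ℝ), (∀ f ∈ I, 0 < w f) ∧
    (∀ f ∈ I, ∀ f' ∈ I, ¬ arc f f' ∧ (f ≠ f' → Disjoint (inc f) (inc f'))) ∧
    δ / 16 * ∑ e, w e ≤ I.card ∧ (∀ e, 0 ≤ w' e) ∧ (∀ Q, nw inc w' Q ≤ 1) ∧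
    (∀ e, Removed arc I e → w' e = 0) ∧ (∀ e, w' e ≤ 16 * r * w e) ∧
    (∀ e, (∀ f ∈ I, Disjoint (inc f) (inc e)) →
      w' e ≤ (1 + 2 * r * (1 + 16 * r) * δ) * w e) ∧
    (1 - 2000 * (r : ℝ) ^ 4 * δ ^ 2) * ∑ e, w e ≤ ∑ e, w' e ∧ ∑ e, w' e ≤ ∑ e, w e

/-- ITR (`theorem p_ITR (h : T_STG) : T_ITR`). Iteration of the stage lemma. PROOF.
`W0 = ∑ w0`, `C = 16 r`, `β = 2r(1+16r)δ`, `η = 2000 r⁴ δ²`. Claim by induction on `t ≤ T`: either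
there is `P` as wanted, or there are `P : Finset V`, `rank : V → ℕ`, `w : V → ℝ`, `c : K → ℕ` with:
(a) `rank < t` on `P`, `arc a b → rank b < rank a` for `a, b ∈ P`; (b) `w e > 0` implies `e ∉ P`
and `¬ arc f e` for all `f ∈ P`; (c) `∑_Q c Q = r |P|`; (d) `0 ≤ w e ≤
x0 (1+β)^t C^(∑_{Q ∈ inc e} c Q)`, and `w e = 0` if `c Q ≥ pm` for some `Q ∈ inc e`;
(e) `nw w Q ≤ 1`, `∑ w ≤ W0`, `∑ w ≥ W0 - t η W0 - #{Q : c Q ≥ pm}`; (f) `|P| ≥ t δ W0/32`.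
Start: `P = ∅`, `w = w0`, `c = 0`. Step: if `g ≤ |P|` we are done. Otherwise
`pm · #{Q : c Q ≥ pm} ≤ ∑ c = r |P| < r g ≤ pm W0/4`, so `∑ w ≥ W0 - W0/4 - W0/4 = W0/2`, and
`w ≤ κ` (where `w e ≠ 0` all `c Q < pm`, so the exponent is `≤ r pm`). Apply T_STG: `I`, `w'`. New
`P ∪ I` (disjoint by (b)), `rank = t` on `I`, `c Q` increased by one if `Q` is hit (each
`f ∈ I` hits its own `r` nodes: `∑ c` grows by `r |I|`), `w'' = w'` but `0` on elements with a node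
`Q` of new `c Q ≥ pm`. (a): for `a ∈ P`, `b ∈ I`: `¬ arc a b` by (b); for `a ∈ I`, `b ∈ P`:
`rank b < t`; in `I` there are no arcs. (d): if `e` has no hit node the factor is `1 + β`; if it has
one the exponent grows by at least one and the factor is `C ≥ 1`. (e): every newly exhausted node
costs at most `nw w' Q ≤ 1`. (f): `|I| ≥ (δ/16) W0/2`. For `t = T`: `|P| ≥ T δ W0/32 ≥ g`. -/
def T_ITR : Prop := ∀ (V K : Type) [Fintype V] [DecidableEq V] [Fintype K] [DecidableEq K]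
  (inc : V → Finset K) (arc : V → V → Prop) (w0 : V → ℝ) (r m T pm : ℕ)
  (s κ δ Γ ℓ x0 g : ℝ),
  Num r m s κ δ Γ ℓ → Gr V K inc arc r ℓ →
  (∀ e, 0 ≤ w0 e ∧ w0 e ≤ x0) → (∀ Q, nw inc w0 Q ≤ 1) → 1 ≤ pm →
  x0 * (1 + 2 * r * (1 + 16 * r) * δ) ^ T * (16 * r) ^ (r * pm) ≤ κ →
  (Fintype.card K : ℝ) ≤ Γ * (∑ e, w0 e) / 2 → 1 ≤ δ ^ 2 * (∑ e, w0 e) / 2 →
  (T : ℝ) * (2000 * (r : ℝ) ^ 4 * δ ^ 2) ≤ 1 / 4 → r * g ≤ pm * (∑ e, w0 e) / 4 →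
  g ≤ T * (δ * (∑ e, w0 e) / 32) →
  ∃ (P : Finset V) (rank : V → ℕ),
    (∀ a ∈ P, ∀ b ∈ P, arc a b → rank b < rank a) ∧ g ≤ P.card

/-- NMB. The parameters exist. PROOF. `L = log k`. Choose in this order: `c2 = ε/(16 r log(16 r))`,
`c1 > 0` with `2000 r⁴ c1² ≤ 1/8`, `200 r² c1 ≤ 1`, then `c > 0` with `4 r c ≤ c2`,
`64000 r⁴ c c1 ≤ 1/8`, `1088 r² c ≤ ε/16`. Put `δ = c1/L`, `m = ⌈2/δ⌉₊`, `s = k^(-2ε)`,
`pm = ⌈c2 L⌉₊`, `T = ⌈32 c L/δ⌉₊`, `Γ = 2 A k^ε`, `ℓ = B k^(1-ε)`, `κ = k^(-1+ε/2)`, and `k` large.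
`(1+β)^T ≤ exp(2r(1+16r) δ (32 c L/δ + 1)) ≤ exp(1088 r² c L + 34 r²)`,
`(16r)^(r pm) ≤ exp(r (c2 L + 1) log(16r))`, so `x0`-condition: exponent
`-L + (ε/16) L + (ε/16) L + const ≤ (-1 + ε/2) L`. `T · 2000 r⁴ δ² ≤ 2000 r⁴ (32 c c1 + c1²/L²) ≤
1/4`. `κ Γ = 2A k^(-1+3ε/2) ≤ 1/8` (`ε ≤ 1/8`), `ℓ κ = B k^(-ε/2) ≤ δ`. `κ/s^(r-1) =
k^(-1+ε/2+2ε(r-1))`, its square root times `Γ` is `2A k^(-1/2 + ε/4 + ε(r-1) + ε)` with exponent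
`-1/2 + ε(r + 1/4) ≤ -1/4` (`4 (r+1) ε ≤ 1`), times polynomials in `L`. `s m Γ ≤ 2A k^(-ε) m`. -/
def T_NMB : Prop := ∀ (r : ℕ) (ε A B : ℝ), 1 ≤ r → 0 < ε → 4 * (r + 1) * ε ≤ 1 → 0 < A → 0 < B →
  ∃ c : ℝ, 0 < c ∧ ∃ k0 : ℕ, ∀ k : ℕ, k0 ≤ k → ∃ (m T pm : ℕ) (s κ δ : ℝ),
    Num r m s κ δ (2 * A * (k : ℝ) ^ ε) (B * (k : ℝ) ^ (1 - ε)) ∧ 1 ≤ pm ∧
    1 / (k : ℝ) * (1 + 2 * r * (1 + 16 * r) * δ) ^ T * (16 * r) ^ (r * pm) ≤ κ ∧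
    1 ≤ δ ^ 2 * k / 2 ∧ (T : ℝ) * (2000 * (r : ℝ) ^ 4 * δ ^ 2) ≤ 1 / 4 ∧
    r * (c * Real.log k) ≤ pm / 4 ∧ c * Real.log k ≤ T * δ / 32

/-- COR (`theorem p_COR (h1 : T_ITR) (h2 : T_NMB) : T_COR`). PROOF. Take `M = k (k+1)` disjoint
copies: `V' = V × Fin M`, `K' = K × Fin M`, `inc' (v,i) = (inc v).map (·, i)` (image),
`arc' (v,i) (u,j) = (i = j ∧ arc v u)`; `Gr` holds for them with the same `r`, `ℓ = B k^(1-ε)`.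
`w0 = 1/(k+1)` constant, `x0 = 1/k`: `W0 = M card V/(k+1) = k card V ≥ k`, `nw ≤ 1` since a
node has at most `k + 1` elements. `card K' = M card K ≤ A k^ε W0 = Γ W0/2`. T_ITR with the
parameters of T_NMB and `g = c W0 log k` (note `δ² W0/2 ≥ δ² k/2 ≥ 1`). The result `P'` has
`≥ c k card V log k` elements in `M` copies, so one copy contains
`≥ c card V log k/(k+1) ≥ (c/2) (card V/k) log k`. Constant `c/2`. -/
def T_COR : Prop := ∀ (r : ℕ) (ε A B : ℝ), 1 ≤ r → 0 < ε → 4 * (r + 1) * ε ≤ 1 → 0 < A → 0 < B →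
  ∃ c : ℝ, 0 < c ∧ ∃ k0 : ℕ, ∀ k : ℕ, k0 ≤ k →
  ∀ (V K : Type) [Fintype V] [DecidableEq V] [Fintype K] [DecidableEq K]
    (inc : V → Finset K) (arc : V → V → Prop), Nonempty V →
    Gr V K inc arc r (B * (k : ℝ) ^ (1 - ε)) →
    (∀ Q, (univ.filter fun e => Q ∈ inc e).card ≤ k + 1) →
    (Fintype.card K : ℝ) ≤ A * (k : ℝ) ^ ε * Fintype.card V / (k + 1) →
    ∃ (P : Finset V) (rank : V → ℕ), (∀ a ∈ P, ∀ b ∈ P, arc a b → rank b < rank a) ∧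
      c * (Fintype.card V / k) * Real.log k ≤ P.card

open Classical in
/-- GRD. Greedy. PROOF. A maximal subset `P` of `U` without arcs: every element of `U` is in `P` or
a neighbour of an element of `P`, so `card U ≤ (d + 1) card P`. -/
def T_GRD : Prop := ∀ (V : Type) [Fintype V] [DecidableEq V] (arc : V → V → Prop) (U : Finset V)
  (d : ℕ), (∀ a b, arc a b → ¬ arc b a) →
  (∀ v ∈ U, (U.filter fun x => arc v x ∨ arc x v).card ≤ d) →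
  ∃ P : Finset V, P ⊆ U ∧ (∀ a ∈ P, ∀ b ∈ P, ¬ arc a b) ∧ U.card ≤ (d + 1) * P.card

open Classical in
/-- RDC (`theorem p_RDC (h1 : T_COR) (h2 : T_GRD) : T_RDC`). PROOF. `ε' = min ε (1/(4(r+1)))`,
`z = k^(1-ε')`. `𝒬₁ = {Q ∈ 𝒬 : z ≤ |Q|}`; for a vertex `v` let `j(v) ≤ r` be the number of
`Q ∈ 𝒬₁` containing it. Pigeonhole: some `j` with `card V ≤ (r+1) card V_j`,
`V_j = {v : j(v) = j}`. The neighbours of `v` without a common member of `𝒬₁` are at most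
`k^(1-ε) + r z ≤ (r+1) k^(1-ε')` in number (outside all cliques, or in one of at most `r` members
of `𝒬` of size `< z`). If `j = 0`: T_GRD for `U = V_0` with `d = ⌊(r+1) k^(1-ε')⌋₊`,
`card P ≥ card V/((r+1)(d+1)) ≥ c (card V/k) log k` for large `k`; `rank = 0`. If `1 ≤ j`: T_COR
with `j`, `ε'`, `A = 2 r (r+1)`, `B = r + 1` for the subtype of `V_j`, `K` = the subtype of `𝒬₁`,
`inc v = {Q : v ∈ Q}`. `lin`: two common members would share two vertices. Size: a member `Q` of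
`𝒬` has at most `k + 1` elements (all others are neighbours of one of them). `card K · z ≤
∑_{Q ∈ 𝒬₁} |Q| ≤ r card V ≤ r (r+1) card V_j`, and `k + 1 ≤ 2k`. Take the minimum of the constants
and the maximum of the thresholds over `j ∈ {0, ..., r}` (`V = ∅` is trivial). -/
def T_RDC : Prop := ∀ (r : ℕ) (ε : ℝ), 0 < ε → ∃ c : ℝ, 0 < c ∧ ∃ k0 : ℕ, ∀ k : ℕ, k0 ≤ k →
  ∀ (V : Type) [Fintype V] [DecidableEq V] (arc : V → V → Prop) (𝒬 : Finset (Finset V)),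
    (∀ a b, arc a b → ¬ arc b a) →
    (∀ v, (univ.filter fun x => arc v x ∨ arc x v).card ≤ k) →
    (∀ Q ∈ 𝒬, ∀ a ∈ Q, ∀ b ∈ Q, a ≠ b → arc a b ∨ arc b a) →
    (∀ Q ∈ 𝒬, ∀ R ∈ 𝒬, Q ≠ R → (Q ∩ R).card ≤ 1) →
    (∀ v, (𝒬.filter fun Q => v ∈ Q).card ≤ r) →
    (∀ v, ((univ.filter fun x => (arc v x ∨ arc x v) ∧ ¬ ∃ Q ∈ 𝒬, v ∈ Q ∧ x ∈ Q).card : ℝ) ≤
      (k : ℝ) ^ (1 - ε)) →
    ∃ (P : Finset V) (rank : V → ℕ), (∀ a ∈ P, ∀ b ∈ P, arc a b → rank b < rank a) ∧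
      c * (Fintype.card V / k) * Real.log k ≤ P.card

end Pool.Agent.LGL
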